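import Mathlib

/-!
Elementary inequalities for the class of polynomials `z^n - B(z)` with `B` having nonnegative
coefficients of sum at most one: at every zero `z` one has `|p'(z)| <= p'(1)`.
-/

set_option autoImplicit false

namespace Pool.Agent.Schmeisser

open Finset

/-- Chord bound for powers. -/
theorem chord (r : ℝ) (h0 : 0 ≤ r) (h1 : r ≤ 1) (j M : ℕ) (hj : j ≤ M) :
    (j : ℝ) * (1 - r ^ M) ≤ M * (1 - r ^ j) := by
  induction M, hj using Nat.le_induction with
  | base => exact le_rfl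
  | succ M hM ih =>
    have h2 : (j : ℝ) * r ^ M * (1 - r) ≤ 1 - r ^ j := by
      have h3 : (1 - r ^ j) = (∑ i ∈ range j, r ^ i) * (1 - r) := by
        have := geom_sum_mul_neg r j
        linarith
      rw [h3]
      apply mul_le_mul_of_nonneg_right _ (by linarith)
      calc (j : ℝ) * r ^ M = ∑ i ∈ range j, r ^ M := by simp
        _ ≤ ∑ i ∈ range j, r ^ i := by
          apply sum_le_sum
          intro i hi
          have : i < j := mem_range.1 hi
          exact pow_le_pow_of_le_one h0 h1 (by omega)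
    push_cast
    have h4 : r ^ (M + 1) = r ^ M * r := pow_succ r M
    rw [h4]
    nlinarith

/-- Sum of a geometric progression dominates the number of terms times the middle ones. -/
theorem geom_ge (r : ℝ) (h0 : 0 ≤ r) (h1 : r ≤ 1) (N : ℕ) (hN : 1 ≤ N) :
    ((N : ℝ) + 1) * (r ^ (N - 1) * (1 + r)) ≤
      (1 + r ^ (N - 1)) * ∑ i ∈ range (N + 1), r ^ i := by
  obtain ⟨M, rfl⟩ : ∃ M, N = M + 1 := ⟨N - 1, by omega⟩
  simp only [Nat.add_sub_cancel]
  have key : ∀ i ∈ range (M + 2), r ^ M * (1 + r) ≤ r ^ i + r ^ M * r ^ (M + 1 - i) := by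
    intro i hi
    have hi' : i < M + 2 := mem_range.1 hi
    rcases Nat.lt_or_ge i (M + 1) with h | h
    · -- i <= M
      have hiM : i ≤ M := by omega
      obtain ⟨t, ht⟩ : ∃ t, M = i + t := ⟨M - i, by omega⟩
      have e1 : M + 1 - i = t + 1 := by omega
      rw [e1, ht, pow_add]
      have hp : 0 ≤ r ^ i := pow_nonneg h0 _
      have ht1 : r ^ t ≤ 1 := pow_le_one₀ h0 h1
      have ht0 : 0 ≤ r ^ t := pow_nonneg h0 _
      have h5 : r ^ (t + 1) = r ^ t * r := pow_succ r t
      rw [h5]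
      have h6 : 0 ≤ r ^ i * ((1 - r ^ t) * (1 - r ^ t * r)) := by
        apply mul_nonneg hp
        apply mul_nonneg (by linarith)
        nlinarith
      nlinarith
    · have : i = M + 1 := by omega
      subst this
      simp only [Nat.sub_self, pow_zero, mul_one]
      have : r ^ (M + 1) = r ^ M * r := pow_succ r M
      rw [this]
      nlinarith
  have hs := sum_le_sum key
  have hrefl : ∑ i ∈ range (M + 2), r ^ (M + 1 - i) = ∑ i ∈ range (M + 2), r ^ i := by
    have := Finset.sum_range_reflect (fun i => r ^ i) (M + 2)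
    simpa using this
  have hmul : ∑ i ∈ range (M + 2), r ^ M * r ^ (M + 1 - i) =
      r ^ M * ∑ i ∈ range (M + 2), r ^ i := by
    rw [← mul_sum, hrefl]
  rw [sum_add_distrib, hmul] at hs
  simp only [sum_const, card_range, nsmul_eq_mul] at hs
  push_cast at hs ⊢
  have e : ∑ i ∈ range (M + 1 + 1), r ^ i = ∑ i ∈ range (M + 2), r ^ i := rfl
  rw [e]
  linarith

/-- Sum of a geometric progression against its extreme terms. -/
theorem geom_le (r : ℝ) (h0 : 0 ≤ r) (h1 : r ≤ 1) (N : ℕ) :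
    2 * ∑ i ∈ range (N + 1), r ^ i ≤ ((N : ℝ) + 1) * (1 + r ^ N) := by
  have key : ∀ i ∈ range (N + 1), r ^ i + r ^ (N - i) ≤ 1 + r ^ N := by
    intro i hi
    have hi' : i < N + 1 := mem_range.1 hi
    obtain ⟨t, ht⟩ : ∃ t, N = i + t := ⟨N - i, by omega⟩
    have e1 : N - i = t := by omega
    rw [e1, ht, pow_add]
    have hi1 : r ^ i ≤ 1 := pow_le_one₀ h0 h1
    have ht1 : r ^ t ≤ 1 := pow_le_one₀ h0 h1
    nlinarith
  have hs := sum_le_sum key
  rw [sum_add_distrib] at hs
  have hrefl : ∑ i ∈ range (N + 1), r ^ (N - i) = ∑ i ∈ range (N + 1), r ^ i := by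
    have := Finset.sum_range_reflect (fun i => r ^ i) (N + 1)
    simpa using this
  rw [hrefl] at hs
  simp only [sum_const, card_range, nsmul_eq_mul] at hs
  push_cast at hs
  linarith

/-- The multipliers. -/
theorem multipliers (r : ℝ) (h0 : 0 < r) (h1 : r < 1) (N : ℕ) (hN : 1 ≤ N) :
    ∃ e m c : ℝ, 0 ≤ e ∧ e ≤ 1 ∧ 0 ≤ m ∧ 0 ≤ c ∧ (1 - e) + e * N + m = c ∧
      (1 - e) * N + e - m + c * r ^ (N + 1) = r * (N + 1) ∧
      c * r ^ N ≤ N + 1 ∧
      ∀ j : ℕ, j < N → ((1 - e) * (N - 1 - j) + e * j + m) * r ^ j + c * r ^ N ≤ N - j := by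
  set S : ℝ := ∑ i ∈ range (N + 1), r ^ i with hS
  have hS1 : 1 ≤ S := by
    rw [hS, sum_range_succ']
    have : 0 ≤ ∑ k ∈ range N, r ^ (k + 1) := sum_nonneg fun i _ => pow_nonneg h0.le _
    simp only [pow_zero]
    linarith
  have hSpos : 0 < S := by linarith
  have hgeom : S * (1 - r) = 1 - r ^ (N + 1) := by
    have := geom_sum_mul_neg r (N + 1)
    exact this
  have hrN0 : 0 ≤ r ^ N := pow_nonneg h0.le _
  have hrN1 : r ^ N ≤ 1 := pow_le_one₀ h0.le h1.le
  set c : ℝ := (N + 1) / S with hc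
  have hcS : c * S = N + 1 := by rw [hc]; field_simp
  have hNpos : (1 : ℝ) ≤ N := by exact_mod_cast hN
  have hcpos : 0 < c := by rw [hc]; positivity
  have hcle : c ≤ N + 1 := by nlinarith
  -- 1 + r^N <= S
  have hSN : 1 + r ^ N ≤ S := by
    rw [hS, sum_range_succ]
    have : 1 ≤ ∑ k ∈ range N, r ^ k := by
      obtain ⟨M, rfl⟩ : ∃ M, N = M + 1 := ⟨N - 1, by omega⟩
      rw [sum_range_succ']
      have : 0 ≤ ∑ k ∈ range M, r ^ (k + 1) := sum_nonneg fun i _ => pow_nonneg h0.le _
      simp only [pow_zero]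
      linarith
    linarith
  have hA : 2 ≤ c * (1 + r ^ N) := by
    have := geom_le r h0.le h1.le N
    rw [hc, div_mul_eq_mul_div, le_div_iff₀ hSpos]
    linarith
  have hB : c * (1 + r ^ N) ≤ N + 1 := by
    rw [← hcS]
    exact mul_le_mul_of_nonneg_left hSN hcpos.le
  have hc1 : 1 ≤ c := by nlinarith
  -- existence of e
  obtain ⟨e2, he0, he1, heN⟩ : ∃ e2 : ℝ, 0 ≤ e2 ∧ e2 ≤ 1 ∧ e2 * (N - 1) = c * (1 + r ^ N) - 2 := by
    rcases Nat.eq_or_lt_of_le hN with h | h
    · refine ⟨0, le_rfl, zero_le_one, ?_⟩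
      have hN1 : N = 1 := h.symm
      subst hN1
      have : c * (1 + r ^ 1) = 2 := by
        have h3 : S = 1 + r := by
          rw [hS]; simp [sum_range_succ]
        rw [pow_one, ← h3, hcS]
        norm_num
      rw [this]
      norm_num
    · have h2 : (0 : ℝ) < N - 1 := by
        have : (1 : ℝ) < N := by exact_mod_cast h
        linarith
      refine ⟨(c * (1 + r ^ N) - 2) / (N - 1), ?_, ?_, ?_⟩
      · apply div_nonneg _ h2.le
        linarith
      · rw [div_le_one h2]
        linarith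
      · field_simp
  have hC : c * (r ^ (N - 1) * (1 + r)) ≤ 1 + r ^ (N - 1) := by
    have := geom_ge r h0.le h1.le N hN
    rw [hc, div_mul_eq_mul_div, div_le_iff₀ hSpos]
    exact this
  refine ⟨e2 / 2, c * (1 - r ^ N) / 2, c, by linarith, by linarith, ?_, hcpos.le, ?_, ?_, ?_, ?_⟩
  · apply div_nonneg _ (by norm_num)
    apply mul_nonneg hcpos.le
    linarith
  · -- (1-e)+eN+m = c
    have : (1 - e2 / 2) + e2 / 2 * N + c * (1 - r ^ N) / 2 = 1 + e2 * (N - 1) / 2 + c * (1 - r ^ N) / 2 := by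
      ring
    rw [this, heN]
    ring
  · have h2 : (1 - e2 / 2) * N + e2 / 2 - c * (1 - r ^ N) / 2 + c * r ^ (N + 1) =
        N - e2 * (N - 1) / 2 - c * (1 - r ^ N) / 2 + c * r ^ (N + 1) := by ring
    rw [h2, heN]
    have h3 : c * (1 - r ^ (N + 1)) = (N + 1) * (1 - r) := by
      rw [← hgeom, ← hcS]; ring
    linarith
  · calc c * r ^ N ≤ c * 1 := mul_le_mul_of_nonneg_left hrN1 hcpos.le
      _ ≤ N + 1 := by linarith
  · intro j hj
    -- reduce to e2 j r^j + c r^N (1 - r^j) <= (N-j)(1-r^j)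
    have hjN : (j : ℝ) ≤ N - 1 := by
      have : ((j + 1 : ℕ) : ℝ) ≤ N := by exact_mod_cast hj
      push_cast at this
      linarith
    have hj0 : (0 : ℝ) ≤ j := Nat.cast_nonneg j
    have hx0 : 0 ≤ r ^ j := pow_nonneg h0.le _
    have hx1 : r ^ j ≤ 1 := pow_le_one₀ h0.le h1.le
    have h2 : (1 - e2 / 2) * (N - 1 - j) + e2 / 2 * j + c * (1 - r ^ N) / 2 =
        (N - c * r ^ N) - (1 - e2) * j := by
      have : (1 - e2 / 2) * (N - 1 - j) + e2 / 2 * j + c * (1 - r ^ N) / 2 =
        N - 1 - e2 * (N - 1) / 2 - (1 - e2) * j + c * (1 - r ^ N) / 2 := by ring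
      rw [this, heN]
      ring
    rw [h2]
    rcases Nat.eq_or_lt_of_le hN with h | h
    · have hj1 : j = 0 := by omega
      subst hj1
      simp
    · obtain ⟨M, hM⟩ : ∃ M, N = M + 1 := ⟨N - 1, by omega⟩
      have hM1 : 1 ≤ M := by omega
      have hMr : (N : ℝ) - 1 = M := by rw [hM]; push_cast; ring
      have hMpos : (0 : ℝ) < M := by exact_mod_cast hM1
      have hchord := chord r h0.le h1.le j M (by omega)
      have hN1 : N - 1 = M := by omega
      rw [hN1] at hC
      rw [hMr] at heN hjN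
      set y : ℝ := r ^ M with hy
      have hy1 : y ≤ 1 := pow_le_one₀ h0.le h1.le
      have hy0 : 0 ≤ y := pow_nonneg h0.le _
      have hrN : r ^ N = y * r := by rw [hM, pow_succ]
      set x : ℝ := r ^ j with hx
      -- A_j >= 0
      have hAj : 0 ≤ (N - c * r ^ N) - (1 - e2) * j := by
        have h4 : (1 - e2) * (j : ℝ) ≤ (1 - e2) * M := mul_le_mul_of_nonneg_left hjN (by linarith)
        have h5 : (N : ℝ) = M + 1 := by rw [hM]; push_cast; ring
        nlinarith
      have h6 : ((N - c * r ^ N) - (1 - e2) * j) * (M * x) ≤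
          ((N - c * r ^ N) - (1 - e2) * j) * (M - j * (1 - y)) :=
        mul_le_mul_of_nonneg_left (by linarith) hAj
      have h7 : (N : ℝ) = M + 1 := by rw [hM]; push_cast; ring
      -- endpoint inequality
      have h8 : e2 * M * y ≤ (1 - c * r ^ N) * (1 - y) := by
        rw [heN, hrN]
        nlinarith
      have h9 : (1 - e2) * j * (1 - y) ≤ (1 - e2) * M * (1 - y) := by
        apply mul_le_mul_of_nonneg_right _ (by linarith)
        exact mul_le_mul_of_nonneg_left hjN (by linarith)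
      have h10 : ((N - c * r ^ N) - (1 - e2) * j) * (M - j * (1 - y)) + M * (c * r ^ N) - M * (N - j) =
          j * (e2 * M - (N - c * r ^ N) * (1 - y) + (1 - e2) * j * (1 - y)) := by
        ring
      have h11 : e2 * M - (N - c * r ^ N) * (1 - y) + (1 - e2) * j * (1 - y) ≤ 0 := by
        rw [h7]
        nlinarith
      have h12 : j * (e2 * M - (N - c * r ^ N) * (1 - y) + (1 - e2) * j * (1 - y)) ≤ 0 :=
        mul_nonpos_of_nonneg_of_nonpos hj0 h11
      have h13 : M * ((((N - c * r ^ N) - (1 - e2) * j) * x + c * r ^ N) - (N - j)) ≤ 0 := by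
        nlinarith
      have h14 := nonpos_of_mul_nonpos_right h13 hMpos
      linarith

end Pool.Agent.Schmeisser
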