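import Mathlib
import Pool.Agent.Lib_MP_9284e8_an.Ineq

/-!
The derivative bound at zeros.
-/

set_option autoImplicit false

namespace Pool.Agent.Schmeisser

open Finset

theorem norm_sum_cast (N : ℕ) (c : ℕ → ℝ) (hc : ∀ j, j < N → 0 ≤ c j) (z : ℂ) :
    ‖∑ j ∈ range N, (c j : ℂ) * z ^ (j + 1)‖ ≤ ∑ j ∈ range N, c j * ‖z‖ ^ (j + 1) := by
  refine (norm_sum_le _ _).trans (le_of_eq (sum_congr rfl fun j hj => ?_))
  rw [norm_mul, norm_pow, Complex.norm_real, Real.norm_of_nonneg (hc j (mem_range.1 hj))]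

/-- At every zero `z` of `z^(N+1) - b0 - sum a_j z^(j+1)` in the closed unit disc the modulus of
`z p'(z)` is at most `|z| p'(1)`. -/
theorem key_bound (N : ℕ) (hN : 1 ≤ N) (b0 : ℝ) (a : ℕ → ℝ) (hb0 : 0 ≤ b0)
    (ha : ∀ j, j < N → 0 ≤ a j) (hsum : b0 + ∑ j ∈ range N, a j ≤ 1) (z : ℂ) (hz : ‖z‖ ≤ 1)
    (hzero : z ^ (N + 1) = (b0 : ℂ) + ∑ j ∈ range N, (a j : ℂ) * z ^ (j + 1)) :
    ‖((N : ℂ) + 1) * b0 + ∑ j ∈ range N, (((N : ℝ) - j) * a j : ℝ) * z ^ (j + 1)‖ ≤
      ‖z‖ * ((N : ℝ) + 1 - ∑ j ∈ range N, ((j : ℝ) + 1) * a j) := by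
  set r : ℝ := ‖z‖ with hr
  set V : ℂ := ((N : ℂ) + 1) * b0 + ∑ j ∈ range N, (((N : ℝ) - j) * a j : ℝ) * z ^ (j + 1) with hV
  have hr0 : 0 ≤ r := norm_nonneg z
  have hjN : ∀ j, j < N → (j : ℝ) + 1 ≤ N := by
    intro j hj
    have : ((j + 1 : ℕ) : ℝ) ≤ N := by exact_mod_cast hj
    push_cast at this
    exact this
  have hN0 : (0 : ℝ) ≤ N := Nat.cast_nonneg N
  -- three bounds
  have B1 : ‖V‖ ≤ N * b0 + ∑ j ∈ range N, (((N : ℝ) - 1 - j) * a j) * r ^ (j + 1) + r ^ (N + 1) := by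
    have e : V = (N * b0 : ℝ) + ∑ j ∈ range N, ((((N : ℝ) - 1 - j) * a j : ℝ) : ℂ) * z ^ (j + 1) +
        z ^ (N + 1) := by
      rw [hV, hzero]
      have : ∑ j ∈ range N, ((((N : ℝ) - j) * a j : ℝ) : ℂ) * z ^ (j + 1) =
          ∑ j ∈ range N, ((((N : ℝ) - 1 - j) * a j : ℝ) : ℂ) * z ^ (j + 1) +
            ∑ j ∈ range N, (a j : ℂ) * z ^ (j + 1) := by
        rw [← sum_add_distrib]
        refine sum_congr rfl fun j _ => ?_
        push_cast
        ring
      rw [this]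
      push_cast
      ring
    rw [e]
    refine (norm_add_le _ _).trans ?_
    refine add_le_add ((norm_add_le _ _).trans (add_le_add ?_ ?_)) ?_
    · rw [Complex.norm_real, Real.norm_of_nonneg (by positivity)]
    · exact norm_sum_cast N _ (fun j hj => mul_nonneg (by linarith [hjN j hj]) (ha j hj)) z
    · rw [norm_pow]
  have B2 : ‖V‖ ≤ b0 + N * r ^ (N + 1) + ∑ j ∈ range N, ((j : ℝ) * a j) * r ^ (j + 1) := by
    have e : V = (b0 : ℝ) + (N : ℝ) * z ^ (N + 1) -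
        ∑ j ∈ range N, (((j : ℝ) * a j : ℝ) : ℂ) * z ^ (j + 1) := by
      rw [hV, hzero]
      have : ∑ j ∈ range N, ((((N : ℝ) - j) * a j : ℝ) : ℂ) * z ^ (j + 1) =
          (N : ℂ) * ∑ j ∈ range N, (a j : ℂ) * z ^ (j + 1) -
            ∑ j ∈ range N, (((j : ℝ) * a j : ℝ) : ℂ) * z ^ (j + 1) := by
        rw [mul_sum, ← sum_sub_distrib]
        refine sum_congr rfl fun j _ => ?_
        push_cast
        ring
      rw [this]
      push_cast
      ring
    rw [e]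
    refine (norm_sub_le _ _).trans ?_
    refine add_le_add ((norm_add_le _ _).trans (add_le_add ?_ ?_)) ?_
    · rw [Complex.norm_real, Real.norm_of_nonneg hb0]
    · rw [norm_mul, norm_pow, Complex.norm_real, Real.norm_of_nonneg hN0]
    · exact norm_sum_cast N _ (fun j hj => mul_nonneg (Nat.cast_nonneg j) (ha j hj)) z
  have B3 : b0 ≤ r ^ (N + 1) + ∑ j ∈ range N, a j * r ^ (j + 1) := by
    have e : (b0 : ℂ) = z ^ (N + 1) - ∑ j ∈ range N, (a j : ℂ) * z ^ (j + 1) := by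
      rw [hzero]; ring
    have h1 : ‖(b0 : ℂ)‖ = b0 := by rw [Complex.norm_real, Real.norm_of_nonneg hb0]
    rw [← h1, e]
    refine (norm_sub_le _ _).trans (add_le_add ?_ (norm_sum_cast N _ ha z))
    rw [norm_pow]
  have hsa : 0 ≤ ∑ j ∈ range N, a j := sum_nonneg fun j hj => ha j (mem_range.1 hj)
  rcases hr0.eq_or_lt with h0 | h0
  · -- r = 0
    have hz0 : z = 0 := by
      rw [hr] at h0
      exact norm_eq_zero.1 h0.symm
    have hb : b0 = 0 := by
      have := hzero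
      rw [hz0] at this
      simp only [ne_eq, Nat.succ_ne_zero, not_false_eq_true, zero_pow, mul_zero,
        sum_const_zero, add_zero] at this
      exact_mod_cast this.symm
    rw [← h0, hV, hz0, hb]
    simp
  rcases hz.eq_or_lt with h1 | h1
  · -- r = 1
    rw [h1] at B1 ⊢
    simp only [one_pow, mul_one] at B1
    rw [one_mul]
    have e : ∑ j ∈ range N, (((N : ℝ) - 1 - j) * a j) =
        N * (∑ j ∈ range N, a j) - ∑ j ∈ range N, ((j : ℝ) + 1) * a j := by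
      rw [mul_sum, ← sum_sub_distrib]
      exact sum_congr rfl fun j _ => by ring
    rw [e] at B1
    nlinarith
  · -- 0 < r < 1
    obtain ⟨e, m, c, he0, he1, hm, hc, hsumc, hk0, hkN, hkj⟩ := multipliers r h0 h1 N hN
    have hX : ‖V‖ ≤ (1 - e) * (N * b0 + ∑ j ∈ range N, (((N : ℝ) - 1 - j) * a j) * r ^ (j + 1) +
        r ^ (N + 1)) + e * (b0 + N * r ^ (N + 1) + ∑ j ∈ range N, ((j : ℝ) * a j) * r ^ (j + 1)) +
        m * (r ^ (N + 1) + ∑ j ∈ range N, a j * r ^ (j + 1) - b0) := by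
      have h1 : (1 - e) * ‖V‖ ≤ _ := mul_le_mul_of_nonneg_left B1 (by linarith)
      have h2 : e * ‖V‖ ≤ _ := mul_le_mul_of_nonneg_left B2 he0
      have h3 : 0 ≤ m * (r ^ (N + 1) + ∑ j ∈ range N, a j * r ^ (j + 1) - b0) :=
        mul_nonneg hm (by linarith)
      linarith
    -- collect
    have hcol : (1 - e) * (N * b0 + ∑ j ∈ range N, (((N : ℝ) - 1 - j) * a j) * r ^ (j + 1) +
        r ^ (N + 1)) + e * (b0 + N * r ^ (N + 1) + ∑ j ∈ range N, ((j : ℝ) * a j) * r ^ (j + 1)) +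
        m * (r ^ (N + 1) + ∑ j ∈ range N, a j * r ^ (j + 1) - b0) =
        b0 * ((1 - e) * N + e - m) +
        (∑ j ∈ range N, a j * (((1 - e) * (N - 1 - j) + e * j + m) * r ^ (j + 1))) +
        c * r ^ (N + 1) := by
      have e1 : ∑ j ∈ range N, a j * (((1 - e) * (N - 1 - j) + e * j + m) * r ^ (j + 1)) =
          (1 - e) * ∑ j ∈ range N, (((N : ℝ) - 1 - j) * a j) * r ^ (j + 1) +
          e * ∑ j ∈ range N, ((j : ℝ) * a j) * r ^ (j + 1) +
          m * ∑ j ∈ range N, a j * r ^ (j + 1) := by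
        rw [mul_sum, mul_sum, mul_sum, ← sum_add_distrib, ← sum_add_distrib]
        exact sum_congr rfl fun j _ => by ring
      rw [e1, ← hsumc]
      ring
    have hterm : ∑ j ∈ range N, a j * (((1 - e) * (N - 1 - j) + e * j + m) * r ^ (j + 1)) ≤
        ∑ j ∈ range N, a j * (r * (N - j) - c * r ^ (N + 1)) := by
      refine sum_le_sum fun j hj => ?_
      apply mul_le_mul_of_nonneg_left _ (ha j (mem_range.1 hj))
      have h2 := mul_le_mul_of_nonneg_left (hkj j (mem_range.1 hj)) h0.le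
      have e2 : r ^ (j + 1) = r * r ^ j := pow_succ' r j
      have e3 : r ^ (N + 1) = r * r ^ N := pow_succ' r N
      rw [e2, e3]
      nlinarith
    have hexp : ∑ j ∈ range N, a j * (r * (N - j) - c * r ^ (N + 1)) =
        (r * (N + 1) - c * r ^ (N + 1)) * (∑ j ∈ range N, a j) -
          r * ∑ j ∈ range N, ((j : ℝ) + 1) * a j := by
      rw [mul_sum, mul_sum, ← sum_sub_distrib]
      exact sum_congr rfl fun j _ => by ring
    have hb : b0 * ((1 - e) * N + e - m) = b0 * (r * (N + 1) - c * r ^ (N + 1)) := by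
      rw [← hk0]; ring
    have hd : 0 ≤ r * (N + 1) - c * r ^ (N + 1) := by
      have h2 := mul_le_mul_of_nonneg_left hkN h0.le
      have e3 : r ^ (N + 1) = r * r ^ N := pow_succ' r N
      rw [e3]
      nlinarith
    have hfin : (r * (N + 1) - c * r ^ (N + 1)) * (b0 + ∑ j ∈ range N, a j) ≤
        (r * (N + 1) - c * r ^ (N + 1)) * 1 := mul_le_mul_of_nonneg_left hsum hd
    rw [hcol] at hX
    rw [hexp] at hterm
    nlinarith

end Pool.Agent.Schmeisser
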