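import Mathlib
import Pool.Agent.Lib_MP_9284e8_an.Bound

/-!
The convex hull property.
-/

set_option autoImplicit false

namespace Pool.Agent.Schmeisser

open Finset

/-- Strict monotonicity of products over multisets. -/
theorem prod_lt (s : Multiset ℂ) (f g : ℂ → ℝ) (h : ∀ w ∈ s, 0 ≤ f w ∧ f w < g w) (hs : s ≠ 0) :
    (s.map f).prod < (s.map g).prod := by
  induction s using Multiset.induction with
  | empty => exact absurd rfl hs
  | cons a s ih =>
    rw [Multiset.map_cons, Multiset.prod_cons, Multiset.map_cons, Multiset.prod_cons]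
    have ha := h a (Multiset.mem_cons_self a s)
    have hs' : ∀ w ∈ s, 0 ≤ f w ∧ f w < g w := fun w hw => h w (Multiset.mem_cons_of_mem hw)
    have hg0 : 0 < (s.map g).prod := by
      apply Multiset.prod_pos
      intro x hx
      obtain ⟨w, hw, rfl⟩ := Multiset.mem_map.1 hx
      exact (hs' w hw).1.trans_lt (hs' w hw).2
    have hle : (s.map f).prod ≤ (s.map g).prod :=
      Multiset.prod_map_le_prod_map₀ f g (fun w hw => (hs' w hw).1) (fun w hw => (hs' w hw).2.le)
    calc f a * (s.map f).prod ≤ f a * (s.map g).prod := mul_le_mul_of_nonneg_left hle ha.1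
      _ < g a * (s.map g).prod := mul_lt_mul_of_pos_right ha.2 hg0

/-- Norm of a polynomial value through its roots. -/
theorem norm_eval_eq (P : Polynomial ℂ) (x : ℂ) :
    ‖P.eval x‖ = ‖P.leadingCoeff‖ * (P.roots.map fun w => ‖x - w‖).prod := by
  rw [(IsAlgClosed.splits P).eval_eq_prod_roots x, norm_mul]
  congr 1
  induction P.roots using Multiset.induction with
  | empty => simp
  | cons a s ih => simp [ih]

/-- The shape of the polynomials in question. -/
theorem shape (N : ℕ) (hN : 1 ≤ N) (p : Polynomial ℂ) (hp : p.Monic) (hdeg : p.natDegree = N + 1)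
    (hc : ∀ k : ℕ, k < N + 1 → ∃ r : ℝ, r ≤ 0 ∧ p.coeff k = (r : ℂ)) :
    ∃ (b0 : ℝ) (a : ℕ → ℝ), 0 ≤ b0 ∧ (∀ j, j < N → 0 ≤ a j) ∧
      (∀ z : ℂ, p.eval z = z ^ (N + 1) - ((b0 : ℂ) + ∑ j ∈ range N, (a j : ℂ) * z ^ (j + 1))) ∧
      (∀ z : ℂ, (Polynomial.derivative p).eval z =
        ((N : ℂ) + 1) * z ^ N - ∑ j ∈ range N, (((j : ℝ) + 1) * a j : ℝ) * z ^ j) := by
  choose! r hr0 hr using hc
  have hpp : p = Polynomial.X ^ (N + 1) - (Polynomial.C (((-r 0 : ℝ)) : ℂ) +
      ∑ j ∈ range N, Polynomial.C (((-r (j + 1) : ℝ)) : ℂ) * Polynomial.X ^ (j + 1)) := by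
    conv_lhs => rw [p.as_sum_range_C_mul_X_pow, hdeg]
    rw [sum_range_succ, sum_range_succ']
    have h1 : p.coeff (N + 1) = 1 := by
      rw [← hdeg]; exact hp.coeff_natDegree
    rw [h1]
    have h2 : ∑ j ∈ range N, Polynomial.C (p.coeff (j + 1)) * Polynomial.X ^ (j + 1) =
        -∑ j ∈ range N, Polynomial.C (((-r (j + 1) : ℝ)) : ℂ) * Polynomial.X ^ (j + 1) := by
      rw [← sum_neg_distrib]
      refine sum_congr rfl fun j hj => ?_
      rw [hr (j + 1) (by have := mem_range.1 hj; omega)]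
      simp
    rw [h2, hr 0 (by omega)]
    simp
    ring
  refine ⟨-r 0, fun j => -r (j + 1), ?_, ?_, ?_, ?_⟩
  · have := hr0 0 (by omega)
    linarith
  · intro j hj
    have := hr0 (j + 1) (by omega)
    simp only
    linarith
  · intro z
    rw [hpp]
    simp [Polynomial.eval_finsetSum]
  · intro z
    rw [hpp]
    simp only [Polynomial.derivative_sub, Polynomial.derivative_C,
      Polynomial.derivative_sum, Polynomial.derivative_X_pow, Polynomial.derivative_C_mul,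
      Polynomial.eval_sub, Polynomial.eval_add, Polynomial.eval_mul, Polynomial.eval_finsetSum,
      Polynomial.eval_C, Polynomial.eval_X, Polynomial.eval_pow, Polynomial.eval_zero,
      Nat.add_sub_cancel, Nat.cast_add, Nat.cast_one, map_add, map_one, map_natCast,
      Polynomial.eval_natCast, Polynomial.eval_one]
    rw [zero_add]
    congr 1
    refine sum_congr rfl fun j _ => ?_
    push_cast
    ring

/-- The coefficients have sum at most one. -/
theorem sum_le_one (N : ℕ) (p : Polynomial ℂ) (b0 : ℝ) (a : ℕ → ℝ)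
    (hb0 : 0 ≤ b0) (ha : ∀ j, j < N → 0 ≤ a j)
    (hev : ∀ z : ℂ, p.eval z =
      z ^ (N + 1) - ((b0 : ℂ) + ∑ j ∈ range N, (a j : ℂ) * z ^ (j + 1)))
    (hz : ∀ z : ℂ, p.eval z = 0 → ‖z‖ ≤ 1) : b0 + ∑ j ∈ range N, a j ≤ 1 := by
  by_contra hcon
  push Not at hcon
  set s : ℝ := b0 + ∑ j ∈ range N, a j with hs
  let f : ℝ → ℝ := fun x => x ^ (N + 1) - (b0 + ∑ j ∈ range N, a j * x ^ (j + 1))
  have hf : Continuous f := by
    unfold f
    fun_prop
  have hf1 : f 1 < 0 := by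
    simp only [f, one_pow, mul_one]
    linarith
  have hfs : 0 ≤ f s := by
    simp only [f]
    have h1 : 1 ≤ s ^ N := one_le_pow₀ hcon.le
    have h2 : ∑ j ∈ range N, a j * s ^ (j + 1) ≤ (∑ j ∈ range N, a j) * s ^ N := by
      rw [sum_mul]
      refine sum_le_sum fun j hj => ?_
      apply mul_le_mul_of_nonneg_left _ (ha j (mem_range.1 hj))
      exact pow_le_pow_right₀ hcon.le (mem_range.1 hj)
    have h3 : s ^ (N + 1) = s * s ^ N := pow_succ' s N
    rw [h3]
    nlinarith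
  obtain ⟨x, hx, hfx⟩ := intermediate_value_Icc hcon.le hf.continuousOn
    (show (0 : ℝ) ∈ Set.Icc (f 1) (f s) from ⟨hf1.le, hfs⟩)
  have hx1 : x ≠ 1 := by
    intro h
    rw [h] at hfx
    linarith
  have h0 : p.eval (x : ℂ) = 0 := by
    rw [hev]
    have : ((f x : ℝ) : ℂ) = 0 := by rw [hfx]; simp
    simp only [f] at this
    push_cast at this
    exact this
  have h1 := hz x h0
  rw [Complex.norm_real, Real.norm_eq_abs] at h1
  have h2 : x ≤ 1 := (le_abs_self x).trans h1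
  exact hx1 (le_antisymm h2 hx.1)

/-- Comparison of distances for inverse points. -/
theorem inv1 (z1 ζ w : ℂ) (k d : ℝ) (hk : k * d ^ 2 = 1)
    (hd : d ^ 2 = (z1.re - ζ.re) ^ 2 + (z1.im - ζ.im) ^ 2) :
    ‖z1 - w‖ ^ 2 - (d * ‖ζ + (k : ℂ) * (z1 - ζ) - w‖) ^ 2 = (‖w - ζ‖ ^ 2 - 1) * (1 - d ^ 2) := by
  have h1 : ‖z1 - w‖ ^ 2 = (z1.re - w.re) ^ 2 + (z1.im - w.im) ^ 2 := by
    rw [Complex.sq_norm, Complex.normSq_apply, Complex.sub_re, Complex.sub_im]
    ring
  have h2 : ‖ζ + (k : ℂ) * (z1 - ζ) - w‖ ^ 2 =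
      (ζ.re + k * (z1.re - ζ.re) - w.re) ^ 2 + (ζ.im + k * (z1.im - ζ.im) - w.im) ^ 2 := by
    rw [Complex.sq_norm, Complex.normSq_apply]
    simp only [Complex.sub_re, Complex.sub_im, Complex.add_re, Complex.add_im,
      Complex.mul_re, Complex.mul_im, Complex.ofReal_re, Complex.ofReal_im, zero_mul,
      sub_zero, add_zero]
    ring
  have h3 : ‖w - ζ‖ ^ 2 = (w.re - ζ.re) ^ 2 + (w.im - ζ.im) ^ 2 := by
    rw [Complex.sq_norm, Complex.normSq_apply, Complex.sub_re, Complex.sub_im]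
    ring
  rw [mul_pow, h1, h2, h3]
  linear_combination (-2 * ((ζ.re - w.re) * (z1.re - ζ.re) + (ζ.im - w.im) * (z1.im - ζ.im)) -
    (k * d ^ 2 + 1)) * hk + (-1 + k ^ 2 * d ^ 2) * hd

/-- Size of the inverse point. -/
theorem inv2 (z1 ζ : ℂ) (k d : ℝ) (hk : k * d ^ 2 = 1)
    (hd : d ^ 2 = (z1.re - ζ.re) ^ 2 + (z1.im - ζ.im) ^ 2) :
    d ^ 2 * ‖ζ + (k : ℂ) * (z1 - ζ)‖ ^ 2 =
      d ^ 2 * ‖ζ‖ ^ 2 + 2 * ((ζ.re * z1.re + ζ.im * z1.im) - ‖ζ‖ ^ 2) + 1 := by
  have h2 : ‖ζ + (k : ℂ) * (z1 - ζ)‖ ^ 2 =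
      (ζ.re + k * (z1.re - ζ.re)) ^ 2 + (ζ.im + k * (z1.im - ζ.im)) ^ 2 := by
    rw [Complex.sq_norm, Complex.normSq_apply]
    simp only [Complex.sub_re, Complex.sub_im, Complex.add_re, Complex.add_im,
      Complex.mul_re, Complex.mul_im, Complex.ofReal_re, Complex.ofReal_im, zero_mul,
      sub_zero, add_zero]
    ring
  have h3 : ‖ζ‖ ^ 2 = ζ.re ^ 2 + ζ.im ^ 2 := by
    rw [Complex.sq_norm, Complex.normSq_apply]
    ring
  rw [h2, h3]
  linear_combination (2 * (ζ.re * (z1.re - ζ.re) + ζ.im * (z1.im - ζ.im)) +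
    (k * d ^ 2 + 1)) * hk - k ^ 2 * d ^ 2 * hd

/-- Main theorem. -/
theorem hull (N : ℕ) (hN : 1 ≤ N) (p : Polynomial ℂ) (hp : p.Monic) (hdeg : p.natDegree = N + 1)
    (hc : ∀ k : ℕ, k < N + 1 → ∃ r : ℝ, r ≤ 0 ∧ p.coeff k = (r : ℂ))
    (hz : ∀ z : ℂ, p.eval z = 0 → ‖z‖ ≤ 1) (ζ : ℂ)
    (hζ : ζ ∈ convexHull ℝ {z : ℂ | p.eval z = 0}) :
    ∃ w : ℂ, (Polynomial.derivative p).eval w = 0 ∧ ‖w - ζ‖ ≤ 1 := by
  obtain ⟨b0, a, hb0, ha, hev, hder⟩ := shape N hN p hp hdeg hc
  have hsum := sum_le_one N p b0 a hb0 ha hev hz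
  have hN0 : (1 : ℝ) ≤ N := by exact_mod_cast hN
  have hsa : 0 ≤ ∑ j ∈ range N, a j := sum_nonneg fun j hj => ha j (mem_range.1 hj)
  set D : ℝ := (N : ℝ) + 1 - ∑ j ∈ range N, ((j : ℝ) + 1) * a j with hD
  have hjs : ∑ j ∈ range N, ((j : ℝ) + 1) * a j ≤ N := by
    calc ∑ j ∈ range N, ((j : ℝ) + 1) * a j ≤ ∑ j ∈ range N, (N : ℝ) * a j := by
          refine sum_le_sum fun j hj => ?_
          apply mul_le_mul_of_nonneg_right _ (ha j (mem_range.1 hj))
          have : ((j + 1 : ℕ) : ℝ) ≤ N := by exact_mod_cast (mem_range.1 hj)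
          push_cast at this
          exact this
      _ = N * ∑ j ∈ range N, a j := by rw [mul_sum]
      _ ≤ N := by nlinarith
  have hjs0 : 0 ≤ ∑ j ∈ range N, ((j : ℝ) + 1) * a j :=
    sum_nonneg fun j hj => mul_nonneg (by positivity) (ha j (mem_range.1 hj))
  have hD1 : 1 ≤ D := by rw [hD]; linarith
  have hDN : D ≤ N + 1 := by rw [hD]; linarith
  -- lower bound outside the unit disc
  have hlow : ∀ ξ : ℂ, 1 ≤ ‖ξ‖ → ‖ξ‖ ^ N * D ≤ ‖(Polynomial.derivative p).eval ξ‖ := by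
    intro ξ hξ
    rw [hder]
    have h1 : ‖∑ j ∈ range N, ((((j : ℝ) + 1) * a j : ℝ) : ℂ) * ξ ^ j‖ ≤
        ‖ξ‖ ^ N * ∑ j ∈ range N, ((j : ℝ) + 1) * a j := by
      rw [mul_sum]
      refine (norm_sum_le _ _).trans (sum_le_sum fun j hj => ?_)
      rw [norm_mul, norm_pow, Complex.norm_real,
        Real.norm_of_nonneg (mul_nonneg (by positivity) (ha j (mem_range.1 hj))), mul_comm]
      apply mul_le_mul_of_nonneg_right _
        (mul_nonneg (by positivity) (ha j (mem_range.1 hj)))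
      exact pow_le_pow_right₀ hξ (mem_range.1 hj).le
    have h2 : ‖((N : ℂ) + 1) * ξ ^ N‖ = ((N : ℝ) + 1) * ‖ξ‖ ^ N := by
      rw [norm_mul, norm_pow]
      congr 1
      have : ((N : ℂ) + 1) = ((N + 1 : ℕ) : ℂ) := by push_cast; ring
      rw [this, Complex.norm_natCast]
      push_cast
      ring
    have h3 := norm_sub_norm_le (((N : ℂ) + 1) * ξ ^ N)
      (∑ j ∈ range N, ((((j : ℝ) + 1) * a j : ℝ) : ℂ) * ξ ^ j)
    rw [h2] at h3
    rw [hD]
    nlinarith
  -- upper bound at zeros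
  have hup : ∀ z : ℂ, p.eval z = 0 → ‖(Polynomial.derivative p).eval z‖ ≤ D := by
    intro z h0
    have hz1 := hz z h0
    by_cases hz0 : z = 0
    · rw [hz0, hder]
      obtain ⟨M, rfl⟩ : ∃ M, N = M + 1 := ⟨N - 1, by omega⟩
      rw [sum_range_succ']
      simp only [ne_eq, Nat.succ_ne_zero, not_false_eq_true, zero_pow, mul_zero, sum_const_zero,
        pow_zero, mul_one, zero_add, zero_sub, norm_neg, Complex.norm_real, Nat.cast_zero, one_mul]
      rw [Real.norm_of_nonneg (ha 0 (by omega))]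
      have : a 0 ≤ ∑ j ∈ range (M + 1), a j :=
        single_le_sum (f := a) (fun j hj => ha j (mem_range.1 hj)) (mem_range.2 (by omega))
      linarith
    · have hzero : z ^ (N + 1) = (b0 : ℂ) + ∑ j ∈ range N, (a j : ℂ) * z ^ (j + 1) := by
        have := hev z
        rw [h0] at this
        exact (sub_eq_zero.1 this.symm)
      have hk := key_bound N hN b0 a hb0 ha hsum z hz1 hzero
      have he : ((N : ℂ) + 1) * b0 + ∑ j ∈ range N, (((N : ℝ) - j) * a j : ℝ) * z ^ (j + 1) =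
          z * (Polynomial.derivative p).eval z := by
        rw [hder, mul_sub, mul_sum]
        have h1 : z * (((N : ℂ) + 1) * z ^ N) = ((N : ℂ) + 1) * z ^ (N + 1) := by ring
        rw [h1, hzero, mul_add, mul_sum, add_sub_assoc, ← sum_sub_distrib]
        congr 1
        refine sum_congr rfl fun j _ => ?_
        push_cast
        ring
      rw [he, norm_mul] at hk
      exact le_of_mul_le_mul_left hk (norm_pos_iff.2 hz0)
  -- a zero in the right direction
  obtain ⟨z1, hz1, hdir⟩ : ∃ z1 : ℂ, p.eval z1 = 0 ∧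
      ‖ζ‖ ^ 2 ≤ ζ.re * z1.re + ζ.im * z1.im := by
    by_contra hcon
    push Not at hcon
    have hconv : Convex ℝ {z : ℂ | ζ.re * z.re + ζ.im * z.im < ‖ζ‖ ^ 2} := by
      intro x hx y hy s t hs ht hst
      simp only [Set.mem_ofPred_eq, Complex.add_re, Complex.add_im, Complex.real_smul,
        Complex.mul_re, Complex.mul_im, Complex.ofReal_re, Complex.ofReal_im, zero_mul, sub_zero,
        add_zero] at hx hy ⊢
      rcases hs.eq_or_lt with h | h
      · have : t = 1 := by linarith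
        rw [← h, this]
        linarith
      · have h1 := mul_lt_mul_of_pos_left hx h
        have h2 := mul_le_mul_of_nonneg_left hy.le ht
        have h3 : s * ‖ζ‖ ^ 2 + t * ‖ζ‖ ^ 2 = ‖ζ‖ ^ 2 := by rw [← add_mul, hst, one_mul]
        nlinarith
    have hsub : {z : ℂ | p.eval z = 0} ⊆ {z : ℂ | ζ.re * z.re + ζ.im * z.im < ‖ζ‖ ^ 2} :=
      fun z h => hcon z h
    have h1 := convexHull_min hsub hconv hζ
    simp only [Set.mem_ofPred_eq, Complex.sq_norm, Complex.normSq_apply] at h1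
    linarith
  -- the leading coefficient and number of roots of the derivative
  have hlc : (Polynomial.derivative p).leadingCoeff = (N : ℂ) + 1 := by
    rw [Polynomial.leadingCoeff_derivative, hp.leadingCoeff, hdeg]
    push_cast
    ring
  have hnd : (Polynomial.derivative p).natDegree = N := by
    rw [Polynomial.natDegree_derivative, hdeg]
    omega
  have hcard : (Polynomial.derivative p).roots.card = N := by
    rw [← (IsAlgClosed.splits (Polynomial.derivative p)).natDegree_eq_card_roots, hnd]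
  have hdne : Polynomial.derivative p ≠ 0 := by
    intro h
    rw [h] at hnd
    simp at hnd
    omega
  have hrne : (Polynomial.derivative p).roots ≠ 0 := by
    intro h
    rw [h] at hcard
    simp at hcard
    omega
  have hlcn : ‖(Polynomial.derivative p).leadingCoeff‖ = (N : ℝ) + 1 := by
    rw [hlc]
    have : ((N : ℂ) + 1) = ((N + 1 : ℕ) : ℂ) := by push_cast; ring
    rw [this, Complex.norm_natCast]
    push_cast
    ring
  by_contra hcon
  push Not at hcon
  have hfar : ∀ w ∈ (Polynomial.derivative p).roots, 1 < ‖w - ζ‖ := by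
    intro w hw
    exact hcon w ((Polynomial.mem_roots hdne).1 hw)
  set d : ℝ := ‖z1 - ζ‖ with hd
  have hd2 : d ^ 2 = ‖z1‖ ^ 2 - 2 * (ζ.re * z1.re + ζ.im * z1.im) + ‖ζ‖ ^ 2 := by
    rw [hd, Complex.sq_norm, Complex.sq_norm, Complex.sq_norm, Complex.normSq_apply,
      Complex.normSq_apply, Complex.normSq_apply]
    simp only [Complex.sub_re, Complex.sub_im]
    ring
  have hz1n := hz z1 hz1
  have hd0 : 0 ≤ d := norm_nonneg _
  have hz1sq : ‖z1‖ ^ 2 ≤ 1 := by
    have := norm_nonneg z1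
    nlinarith
  have hζ0 : 0 ≤ ‖ζ‖ ^ 2 := sq_nonneg _
  have hd1 : d ≤ 1 := by
    by_contra h
    push Not at h
    nlinarith
  rcases hd0.eq_or_lt with hd0' | hd0'
  · -- d = 0
    have h1 := prod_lt (Polynomial.derivative p).roots (fun _ => (1 : ℝ)) (fun w => ‖z1 - w‖)
      (fun w hw => ⟨zero_le_one, by
        have h2 := hfar w hw
        have h3 : z1 = ζ := by
          have : ‖z1 - ζ‖ = 0 := hd0'.symm
          exact sub_eq_zero.1 (norm_eq_zero.1 this)
        rw [h3, norm_sub_rev]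
        exact h2⟩) hrne
    have h2 := hup z1 hz1
    rw [norm_eval_eq, hlcn] at h2
    simp only [Multiset.map_const', Multiset.prod_replicate, one_pow] at h1
    nlinarith
  rcases hd1.eq_or_lt with hd1' | hd1'
  · -- d = 1
    have hζz : ‖ζ‖ ^ 2 = 0 := by
      rw [hd1'] at hd2
      nlinarith
    have hζz' : ζ = 0 := by
      have : ‖ζ‖ = 0 := by
        exact pow_eq_zero_iff (two_ne_zero) |>.1 hζz
      exact norm_eq_zero.1 this
    obtain ⟨w, hw⟩ := Multiset.exists_mem_of_ne_zero hrne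
    have h1 := hfar w hw
    rw [hζz', sub_zero] at h1
    have h2 := hlow w h1.le
    have h3 : (Polynomial.derivative p).eval w = 0 := (Polynomial.mem_roots hdne).1 hw
    rw [h3, norm_zero] at h2
    have h4 : 1 ≤ ‖w‖ ^ N := one_le_pow₀ h1.le
    nlinarith
  · -- 0 < d < 1
    set ξ : ℂ := ζ + ((1 / d ^ 2 : ℝ) : ℂ) * (z1 - ζ) with hξ
    have hd2pos : 0 < d ^ 2 := by positivity
    have e1 : (1 / d ^ 2) * d ^ 2 = 1 := by field_simp
    have hdd : d ^ 2 = (z1.re - ζ.re) ^ 2 + (z1.im - ζ.im) ^ 2 := by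
      rw [hd, Complex.sq_norm, Complex.normSq_apply, Complex.sub_re, Complex.sub_im]
      ring
    -- for far points the distances compare
    have hcmp : ∀ w ∈ (Polynomial.derivative p).roots, 0 ≤ d * ‖ξ - w‖ ∧ d * ‖ξ - w‖ < ‖z1 - w‖ := by
      intro w hw
      refine ⟨mul_nonneg hd0 (norm_nonneg _), ?_⟩
      have h1 := hfar w hw
      have h2 : (d * ‖ξ - w‖) ^ 2 < ‖z1 - w‖ ^ 2 := by
        have hw2 : 1 < ‖w - ζ‖ ^ 2 := by nlinarith
        have hd2lt : d ^ 2 < 1 := by nlinarith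
        have key := inv1 z1 ζ w (1 / d ^ 2) d e1 hdd
        nlinarith
      exact lt_of_pow_lt_pow_left₀ 2 (norm_nonneg _) h2
    have h1 := prod_lt (Polynomial.derivative p).roots (fun w => d * ‖ξ - w‖) (fun w => ‖z1 - w‖)
      hcmp hrne
    have h2 : ((Polynomial.derivative p).roots.map fun w => d * ‖ξ - w‖).prod =
        d ^ N * ((Polynomial.derivative p).roots.map fun w => ‖ξ - w‖).prod := by
      rw [Multiset.prod_map_mul, Multiset.map_const', Multiset.prod_replicate, hcard]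
    rw [h2] at h1
    -- size of ξ
    have hξsq : d ^ 2 * ‖ξ‖ ^ 2 =
        d ^ 2 * ‖ζ‖ ^ 2 + 2 * ((ζ.re * z1.re + ζ.im * z1.im) - ‖ζ‖ ^ 2) + 1 :=
      inv2 z1 ζ (1 / d ^ 2) d e1 hdd
    have hdξ : 1 ≤ (d * ‖ξ‖) ^ 2 := by
      rw [mul_pow, hξsq]
      nlinarith
    have hdξ1 : 1 ≤ d * ‖ξ‖ := by
      have : 0 ≤ d * ‖ξ‖ := mul_nonneg hd0 (norm_nonneg _)
      nlinarith
    have hξ1 : 1 ≤ ‖ξ‖ := by
      have : 0 ≤ ‖ξ‖ := norm_nonneg _
      nlinarith
    have h3 := hlow ξ hξ1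
    have h4 := hup z1 hz1
    rw [norm_eval_eq, hlcn] at h3 h4
    have h5 : 1 ≤ (d * ‖ξ‖) ^ N := one_le_pow₀ hdξ1
    rw [mul_pow] at h5
    have hdN : 0 < d ^ N := by positivity
    -- D <= (d|ξ|)^N D <= d^N (N+1) prod < (N+1) prod <= D
    have h6 : D ≤ d ^ N * (‖ξ‖ ^ N * D) := by nlinarith
    have h7 : d ^ N * (‖ξ‖ ^ N * D) ≤ d ^ N * (((N : ℝ) + 1) *
        ((Polynomial.derivative p).roots.map fun w => ‖ξ - w‖).prod) :=
      mul_le_mul_of_nonneg_left h3 hdN.le
    have h8 : d ^ N * (((N : ℝ) + 1) *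
        ((Polynomial.derivative p).roots.map fun w => ‖ξ - w‖).prod) <
        ((N : ℝ) + 1) * ((Polynomial.derivative p).roots.map fun w => ‖z1 - w‖).prod := by
      have := mul_lt_mul_of_pos_left h1 (show (0 : ℝ) < (N : ℝ) + 1 by linarith)
      linarith
    linarith

end Pool.Agent.Schmeisser
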