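import Mathlib
import Pool.Agent.Lib_MP_9284e8_an.Hull

/-!
The sharp form: region larger than the convex hull, and the case of equality.
-/

set_option autoImplicit false

namespace Pool.Agent.Schmeisser

open Finset

/-- Weak monotonicity of products over multisets. -/
theorem prod_le' (s : Multiset ℂ) (f g : ℂ → ℝ) (h : ∀ w ∈ s, 0 ≤ f w ∧ f w ≤ g w) :
    (s.map f).prod ≤ (s.map g).prod :=
  Multiset.prod_map_le_prod_map₀ f g (fun w hw => (h w hw).1) (fun w hw => (h w hw).2)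

/-- Sharp form of the main theorem. -/
theorem sharp (N : ℕ) (hN : 1 ≤ N) (p : Polynomial ℂ) (hp : p.Monic) (hdeg : p.natDegree = N + 1)
    (hc : ∀ k : ℕ, k < N + 1 → ∃ r : ℝ, r ≤ 0 ∧ p.coeff k = (r : ℂ))
    (hz : ∀ z : ℂ, p.eval z = 0 → ‖z‖ ≤ 1) (ζ z1 : ℂ) (hz1 : p.eval z1 = 0)
    (hdir : ‖ζ‖ ^ 2 ≤ ζ.re * z1.re + ζ.im * z1.im)
    (hcon : ∀ w : ℂ, (Polynomial.derivative p).eval w = 0 → 1 ≤ ‖w - ζ‖) :
    p = Polynomial.X ^ (N + 1) - 1 ∧ ζ = z1 := by
  obtain ⟨b0, a, hb0, ha, hev, hder⟩ := shape N hN p hp hdeg hc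
  have hsum := sum_le_one N p b0 a hb0 ha hev hz
  have hN0 : (1 : ℝ) ≤ N := by exact_mod_cast hN
  have hsa : 0 ≤ ∑ j ∈ range N, a j := sum_nonneg fun j hj => ha j (mem_range.1 hj)
  set D : ℝ := (N : ℝ) + 1 - ∑ j ∈ range N, ((j : ℝ) + 1) * a j with hD
  have hjs : ∑ j ∈ range N, ((j : ℝ) + 1) * a j ≤ N := by
    calc ∑ j ∈ range N, ((j : ℝ) + 1) * a j ≤ ∑ j ∈ range N, (N : ℝ) * a j := by
          refine sum_le_sum fun j hj => ?_
          apply mul_le_mul_of_nonneg_right _ (ha j (mem_range.1 hj))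
          have : ((j + 1 : ℕ) : ℝ) ≤ N := by exact_mod_cast (mem_range.1 hj)
          push_cast at this
          exact this
      _ = N * ∑ j ∈ range N, a j := by rw [mul_sum]
      _ ≤ N := by nlinarith
  have hjs0 : 0 ≤ ∑ j ∈ range N, ((j : ℝ) + 1) * a j :=
    sum_nonneg fun j hj => mul_nonneg (by positivity) (ha j (mem_range.1 hj))
  have hD1 : 1 ≤ D := by rw [hD]; linarith
  have hDN : D ≤ N + 1 := by rw [hD]; linarith
  -- lower bound outside the unit disc
  have hlow : ∀ ξ : ℂ, 1 ≤ ‖ξ‖ → ‖ξ‖ ^ N * D ≤ ‖(Polynomial.derivative p).eval ξ‖ := by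
    intro ξ hξ
    rw [hder]
    have h1 : ‖∑ j ∈ range N, ((((j : ℝ) + 1) * a j : ℝ) : ℂ) * ξ ^ j‖ ≤
        ‖ξ‖ ^ N * ∑ j ∈ range N, ((j : ℝ) + 1) * a j := by
      rw [mul_sum]
      refine (norm_sum_le _ _).trans (sum_le_sum fun j hj => ?_)
      rw [norm_mul, norm_pow, Complex.norm_real,
        Real.norm_of_nonneg (mul_nonneg (by positivity) (ha j (mem_range.1 hj))), mul_comm]
      apply mul_le_mul_of_nonneg_right _
        (mul_nonneg (by positivity) (ha j (mem_range.1 hj)))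
      exact pow_le_pow_right₀ hξ (mem_range.1 hj).le
    have h2 : ‖((N : ℂ) + 1) * ξ ^ N‖ = ((N : ℝ) + 1) * ‖ξ‖ ^ N := by
      rw [norm_mul, norm_pow]
      congr 1
      have : ((N : ℂ) + 1) = ((N + 1 : ℕ) : ℂ) := by push_cast; ring
      rw [this, Complex.norm_natCast]
      push_cast
      ring
    have h3 := norm_sub_norm_le (((N : ℂ) + 1) * ξ ^ N)
      (∑ j ∈ range N, ((((j : ℝ) + 1) * a j : ℝ) : ℂ) * ξ ^ j)
    rw [h2] at h3
    rw [hD]
    nlinarith
  -- upper bound at zeros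
  have hup : ∀ z : ℂ, p.eval z = 0 → ‖(Polynomial.derivative p).eval z‖ ≤ D := by
    intro z h0
    have hz1 := hz z h0
    by_cases hz0 : z = 0
    · rw [hz0, hder]
      obtain ⟨M, rfl⟩ : ∃ M, N = M + 1 := ⟨N - 1, by omega⟩
      rw [sum_range_succ']
      simp only [ne_eq, Nat.succ_ne_zero, not_false_eq_true, zero_pow, mul_zero, sum_const_zero,
        pow_zero, mul_one, zero_add, zero_sub, norm_neg, Complex.norm_real, Nat.cast_zero, one_mul]
      rw [Real.norm_of_nonneg (ha 0 (by omega))]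
      have : a 0 ≤ ∑ j ∈ range (M + 1), a j :=
        single_le_sum (f := a) (fun j hj => ha j (mem_range.1 hj)) (mem_range.2 (by omega))
      linarith
    · have hzero : z ^ (N + 1) = (b0 : ℂ) + ∑ j ∈ range N, (a j : ℂ) * z ^ (j + 1) := by
        have := hev z
        rw [h0] at this
        exact (sub_eq_zero.1 this.symm)
      have hk := key_bound N hN b0 a hb0 ha hsum z hz1 hzero
      have he : ((N : ℂ) + 1) * b0 + ∑ j ∈ range N, (((N : ℝ) - j) * a j : ℝ) * z ^ (j + 1) =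
          z * (Polynomial.derivative p).eval z := by
        rw [hder, mul_sub, mul_sum]
        have h1 : z * (((N : ℂ) + 1) * z ^ N) = ((N : ℂ) + 1) * z ^ (N + 1) := by ring
        rw [h1, hzero, mul_add, mul_sum, add_sub_assoc, ← sum_sub_distrib]
        congr 1
        refine sum_congr rfl fun j _ => ?_
        push_cast
        ring
      rw [he, norm_mul] at hk
      exact le_of_mul_le_mul_left hk (norm_pos_iff.2 hz0)
  -- the leading coefficient and number of roots of the derivative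
  have hlc : (Polynomial.derivative p).leadingCoeff = (N : ℂ) + 1 := by
    rw [Polynomial.leadingCoeff_derivative, hp.leadingCoeff, hdeg]
    push_cast
    ring
  have hnd : (Polynomial.derivative p).natDegree = N := by
    rw [Polynomial.natDegree_derivative, hdeg]
    omega
  have hcard : (Polynomial.derivative p).roots.card = N := by
    rw [← (IsAlgClosed.splits (Polynomial.derivative p)).natDegree_eq_card_roots, hnd]
  have hdne : Polynomial.derivative p ≠ 0 := by
    intro h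
    rw [h] at hnd
    simp at hnd
    omega
  have hrne : (Polynomial.derivative p).roots ≠ 0 := by
    intro h
    rw [h] at hcard
    simp at hcard
    omega
  have hlcn : ‖(Polynomial.derivative p).leadingCoeff‖ = (N : ℝ) + 1 := by
    rw [hlc]
    have : ((N : ℂ) + 1) = ((N + 1 : ℕ) : ℂ) := by push_cast; ring
    rw [this, Complex.norm_natCast]
    push_cast
    ring
  have hfar : ∀ w ∈ (Polynomial.derivative p).roots, 1 ≤ ‖w - ζ‖ := by
    intro w hw
    exact hcon w ((Polynomial.mem_roots hdne).1 hw)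
  set d : ℝ := ‖z1 - ζ‖ with hd
  have hd2 : d ^ 2 = ‖z1‖ ^ 2 - 2 * (ζ.re * z1.re + ζ.im * z1.im) + ‖ζ‖ ^ 2 := by
    rw [hd, Complex.sq_norm, Complex.sq_norm, Complex.sq_norm, Complex.normSq_apply,
      Complex.normSq_apply, Complex.normSq_apply]
    simp only [Complex.sub_re, Complex.sub_im]
    ring
  have hz1n := hz z1 hz1
  have hd0 : 0 ≤ d := norm_nonneg _
  have hz1sq : ‖z1‖ ^ 2 ≤ 1 := by
    have := norm_nonneg z1
    nlinarith
  have hζ0 : 0 ≤ ‖ζ‖ ^ 2 := sq_nonneg _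
  have hd1 : d ≤ 1 := by
    by_contra h
    push Not at h
    nlinarith
  rcases hd0.eq_or_lt with hd0' | hd0'
  · -- d = 0
    have h3 : ζ = z1 := by
      have : ‖z1 - ζ‖ = 0 := hd0'.symm
      exact (sub_eq_zero.1 (norm_eq_zero.1 this)).symm
    refine ⟨?_, h3⟩
    have h1 := prod_le' (Polynomial.derivative p).roots (fun _ => (1 : ℝ)) (fun w => ‖z1 - w‖)
      (fun w hw => ⟨zero_le_one, by
        have h2 := hfar w hw
        rw [← h3, norm_sub_rev]
        exact h2⟩)
    have h2 := hup z1 hz1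
    rw [norm_eval_eq, hlcn] at h2
    simp only [Multiset.map_const', Multiset.prod_replicate, one_pow] at h1
    have h4 : (N : ℝ) + 1 ≤ D := by nlinarith
    have h5 : ∑ j ∈ range N, ((j : ℝ) + 1) * a j ≤ 0 := by rw [hD] at h4; linarith
    have ha0 : ∀ j, j < N → a j = 0 := by
      intro j hj
      have h6 : ((j : ℝ) + 1) * a j ≤ ∑ j ∈ range N, ((j : ℝ) + 1) * a j :=
        single_le_sum (f := fun j : ℕ => ((j : ℝ) + 1) * a j)
          (fun j hj => mul_nonneg (by positivity) (ha j (mem_range.1 hj))) (mem_range.2 hj)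
      have h7 := ha j hj
      have h8 : (0 : ℝ) ≤ (j : ℝ) := Nat.cast_nonneg j
      nlinarith
    have hsz : ∀ z : ℂ, ∑ j ∈ range N, (a j : ℂ) * z ^ (j + 1) = 0 := by
      intro z
      refine sum_eq_zero fun j hj => ?_
      rw [ha0 j (mem_range.1 hj)]
      simp
    have hsz' : ∀ z : ℂ, ∑ j ∈ range N, ((((j : ℝ) + 1) * a j : ℝ) : ℂ) * z ^ j = 0 := by
      intro z
      refine sum_eq_zero fun j hj => ?_
      rw [ha0 j (mem_range.1 hj)]
      simp
    have hd00 : (Polynomial.derivative p).eval 0 = 0 := by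
      rw [hder, hsz', zero_pow (by omega)]
      simp
    have h9 := hcon 0 hd00
    rw [zero_sub, norm_neg, h3] at h9
    have hb1 : b0 = 1 := by
      have h10 := hev z1
      rw [hz1, hsz, add_zero] at h10
      have h11 : z1 ^ (N + 1) = (b0 : ℂ) := (sub_eq_zero.1 h10.symm)
      have h12 : ‖z1‖ ^ (N + 1) = b0 := by
        rw [← norm_pow, h11, Complex.norm_real, Real.norm_of_nonneg hb0]
      have h13 : ‖z1‖ = 1 := le_antisymm (hz z1 hz1) h9
      rw [h13, one_pow] at h12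
      exact h12.symm
    apply Polynomial.funext
    intro x
    rw [hev x, hsz, hb1]
    simp
  exfalso
  rcases hd1.eq_or_lt with hd1' | hd1'
  · -- d = 1
    have hζz : ‖ζ‖ ^ 2 = 0 := by
      rw [hd1'] at hd2
      nlinarith
    have hζz' : ζ = 0 := by
      have : ‖ζ‖ = 0 := by
        exact pow_eq_zero_iff (two_ne_zero) |>.1 hζz
      exact norm_eq_zero.1 this
    obtain ⟨w, hw⟩ := Multiset.exists_mem_of_ne_zero hrne
    have h1 := hfar w hw
    rw [hζz', sub_zero] at h1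
    have h2 := hlow w h1
    have h3 : (Polynomial.derivative p).eval w = 0 := (Polynomial.mem_roots hdne).1 hw
    rw [h3, norm_zero] at h2
    have h4 : 1 ≤ ‖w‖ ^ N := one_le_pow₀ h1
    nlinarith
  · -- 0 < d < 1
    set ξ : ℂ := ζ + ((1 / d ^ 2 : ℝ) : ℂ) * (z1 - ζ) with hξ
    have hd2pos : 0 < d ^ 2 := by positivity
    have e1 : (1 / d ^ 2) * d ^ 2 = 1 := by field_simp
    have hdd : d ^ 2 = (z1.re - ζ.re) ^ 2 + (z1.im - ζ.im) ^ 2 := by
      rw [hd, Complex.sq_norm, Complex.normSq_apply, Complex.sub_re, Complex.sub_im]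
      ring
    -- for far points the distances compare
    have hcmp : ∀ w ∈ (Polynomial.derivative p).roots, 0 ≤ d * ‖ξ - w‖ ∧ d * ‖ξ - w‖ ≤ ‖z1 - w‖ := by
      intro w hw
      refine ⟨mul_nonneg hd0 (norm_nonneg _), ?_⟩
      have h1 := hfar w hw
      have h2 : (d * ‖ξ - w‖) ^ 2 ≤ ‖z1 - w‖ ^ 2 := by
        have hw2 : 1 ≤ ‖w - ζ‖ ^ 2 := by nlinarith
        have hd2lt : d ^ 2 < 1 := by nlinarith
        have key := inv1 z1 ζ w (1 / d ^ 2) d e1 hdd
        nlinarith
      exact le_of_sq_le_sq h2 (norm_nonneg _)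
    have h1 := prod_le' (Polynomial.derivative p).roots (fun w => d * ‖ξ - w‖) (fun w => ‖z1 - w‖)
      hcmp
    have h2 : ((Polynomial.derivative p).roots.map fun w => d * ‖ξ - w‖).prod =
        d ^ N * ((Polynomial.derivative p).roots.map fun w => ‖ξ - w‖).prod := by
      rw [Multiset.prod_map_mul, Multiset.map_const', Multiset.prod_replicate, hcard]
    rw [h2] at h1
    -- size of ξ
    have hξsq : d ^ 2 * ‖ξ‖ ^ 2 =
        d ^ 2 * ‖ζ‖ ^ 2 + 2 * ((ζ.re * z1.re + ζ.im * z1.im) - ‖ζ‖ ^ 2) + 1 :=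
      inv2 z1 ζ (1 / d ^ 2) d e1 hdd
    have hdξ : 1 ≤ (d * ‖ξ‖) ^ 2 := by
      rw [mul_pow, hξsq]
      nlinarith
    have hdξ1 : 1 ≤ d * ‖ξ‖ := by
      have : 0 ≤ d * ‖ξ‖ := mul_nonneg hd0 (norm_nonneg _)
      nlinarith
    have hξ1 : 1 ≤ ‖ξ‖ := by
      have : 0 ≤ ‖ξ‖ := norm_nonneg _
      nlinarith
    have h3 := hlow ξ hξ1
    have h4 := hup z1 hz1
    rw [norm_eval_eq, hlcn] at h3 h4
    have hdN : 0 < d ^ N := by positivity
    have h7 : d ^ N * (‖ξ‖ ^ N * D) ≤ d ^ N * (((N : ℝ) + 1) *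
        ((Polynomial.derivative p).roots.map fun w => ‖ξ - w‖).prod) :=
      mul_le_mul_of_nonneg_left h3 hdN.le
    have h8 : d ^ N * (((N : ℝ) + 1) *
        ((Polynomial.derivative p).roots.map fun w => ‖ξ - w‖).prod) ≤
        ((N : ℝ) + 1) * ((Polynomial.derivative p).roots.map fun w => ‖z1 - w‖).prod := by
      have := mul_le_mul_of_nonneg_left h1 (show (0 : ℝ) ≤ (N : ℝ) + 1 by linarith)
      linarith
    have h9 : (d * ‖ξ‖) ^ N * D ≤ D := by
      rw [mul_pow]
      linarith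
    -- equality: d|ξ| = 1, hence ζ = 0
    have h10 : (d * ‖ξ‖) ^ N ≤ 1 := by
      by_contra h
      push Not at h
      nlinarith
    have h11 : d * ‖ξ‖ ≤ 1 := by
      by_contra h
      push Not at h
      have := one_lt_pow₀ h (show N ≠ 0 by omega)
      linarith
    have h12 : (d * ‖ξ‖) ^ 2 = 1 := by
      rw [le_antisymm h11 hdξ1, one_pow]
    rw [mul_pow, hξsq] at h12
    have hζz : ‖ζ‖ ^ 2 = 0 := by
      have h13 : d ^ 2 * ‖ζ‖ ^ 2 ≤ 0 := by nlinarith
      by_contra h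
      have h14 : 0 < ‖ζ‖ ^ 2 := lt_of_le_of_ne hζ0 (Ne.symm h)
      have := mul_pos hd2pos h14
      linarith
    have hζz' : ζ = 0 := by
      have : ‖ζ‖ = 0 := by
        exact pow_eq_zero_iff (two_ne_zero) |>.1 hζz
      exact norm_eq_zero.1 this
    obtain ⟨w, hw⟩ := Multiset.exists_mem_of_ne_zero hrne
    have h1 := hfar w hw
    rw [hζz', sub_zero] at h1
    have h2 := hlow w h1
    have h3 : (Polynomial.derivative p).eval w = 0 := (Polynomial.mem_roots hdne).1 hw
    rw [h3, norm_zero] at h2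
    have h4 : 1 ≤ ‖w‖ ^ N := one_le_pow₀ h1
    nlinarith

/-- Every point of the hull lies in a disc with diameter from zero to one of the points. -/
theorem hull_dir (S : Set ℂ) (ζ : ℂ) (hζ : ζ ∈ convexHull ℝ S) :
    ∃ z1 ∈ S, ‖ζ‖ ^ 2 ≤ ζ.re * z1.re + ζ.im * z1.im := by
  by_contra hcon
  push Not at hcon
  have hconv : Convex ℝ {z : ℂ | ζ.re * z.re + ζ.im * z.im < ‖ζ‖ ^ 2} := by
    intro x hx y hy s t hs ht hst
    simp only [Set.mem_ofPred_eq, Complex.add_re, Complex.add_im, Complex.real_smul,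
      Complex.mul_re, Complex.mul_im, Complex.ofReal_re, Complex.ofReal_im, zero_mul, sub_zero,
      add_zero] at hx hy ⊢
    rcases hs.eq_or_lt with h | h
    · have : t = 1 := by linarith
      rw [← h, this]
      linarith
    · have h1 := mul_lt_mul_of_pos_left hx h
      have h2 := mul_le_mul_of_nonneg_left hy.le ht
      have h3 : s * ‖ζ‖ ^ 2 + t * ‖ζ‖ ^ 2 = ‖ζ‖ ^ 2 := by rw [← add_mul, hst, one_mul]
      nlinarith
  have hsub : S ⊆ {z : ℂ | ζ.re * z.re + ζ.im * z.im < ‖ζ‖ ^ 2} :=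
    fun z h => hcon z h
  have h1 := convexHull_min hsub hconv hζ
  simp only [Set.mem_ofPred_eq, Complex.sq_norm, Complex.normSq_apply] at h1
  linarith

/-- The disc with diameter from zero to `z1`. -/
theorem disc_iff (ζ z1 : ℂ) : ζ ∈ Metric.closedBall (z1 / 2) (‖z1‖ / 2) ↔
    ‖ζ‖ ^ 2 ≤ ζ.re * z1.re + ζ.im * z1.im := by
  have h0 : ‖ζ - z1 / 2‖ ^ 2 = ‖ζ‖ ^ 2 - (ζ.re * z1.re + ζ.im * z1.im) + (‖z1‖ / 2) ^ 2 := by
    rw [div_pow, Complex.sq_norm, Complex.sq_norm, Complex.sq_norm, Complex.normSq_apply,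
      Complex.normSq_apply, Complex.normSq_apply]
    have h2 : (z1 / 2).re = z1.re / 2 := by simp
    have h3 : (z1 / 2).im = z1.im / 2 := by simp
    rw [Complex.sub_re, Complex.sub_im, h2, h3]
    ring
  rw [Metric.mem_closedBall, dist_eq_norm]
  constructor
  · intro h
    have := pow_le_pow_left₀ (norm_nonneg _) h 2
    linarith
  · intro h
    have h1 : ‖ζ - z1 / 2‖ ^ 2 ≤ (‖z1‖ / 2) ^ 2 := by linarith
    exact le_of_sq_le_sq h1 (by positivity)

end Pool.Agent.Schmeisser
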